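import Mathlib

set_option autoImplicit false

open MvPolynomial

namespace Pool.Agent.Results.MP_d05de0_co.Full

/-- Degree-`d` rank at most `1`: a product of polynomials of degree at most `d`. -/
def RankOne {σ R : Type} [CommRing R] (d : ℕ) (Q : MvPolynomial σ R) : Prop :=
  ∃ l : List (MvPolynomial σ R), (∀ f ∈ l, f.totalDegree ≤ d) ∧ l.prod = Q

/-- The numbers `k` of terms in decompositions of `Q`; `rk_d Q` is the least of them. -/
def Lens {σ R : Type} [CommRing R] (d : ℕ) (Q : MvPolynomial σ R) : Set ℕ :=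
  {k | ∃ L : List (MvPolynomial σ R), L.length = k ∧
    (∀ f ∈ L, RankOne d f ∧ f.totalDegree ≤ Q.totalDegree) ∧ L.sum = Q}

abbrev A := MvPolynomial (Fin 3) (ZMod 3)

lemma split : ∀ l : List A, (∀ f ∈ l, f.totalDegree ≤ 1) → l.prod.totalDegree ≤ 2 →
    ∃ a b : A, a.totalDegree ≤ 1 ∧ b.totalDegree ≤ 1 ∧ l.prod = a * b
  | [], _, _ => ⟨1, 1, by simp, by simp, by simp⟩
  | f :: l, h, d => by
    rw [List.prod_cons] at d ⊢
    by_cases z : f = 0 ∨ l.prod = 0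
    · exact ⟨0, 0, by simp, by simp, by simpa using z⟩
    rw [totalDegree_mul_of_isDomain (not_or.1 z).1 (not_or.1 z).2] at d
    by_cases e : f.totalDegree = 0
    · obtain ⟨a, b, x, y, w⟩ := split l (fun g hg => h g (.tail _ hg)) (by omega)
      exact ⟨f * a, b, (totalDegree_mul f a).trans (by omega), y, by rw [w, mul_assoc]⟩
    · exact ⟨f, l.prod, h f (.head _), by omega, rfl⟩

lemma aff {f : A} (h : f.totalDegree ≤ 1) :
    ∃ a b c d, ∀ x : Fin 3 → ZMod 3, eval x f = a + b * x 0 + c * x 1 + d * x 2 := by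
  rw [f.as_sum]
  refine Finset.sum_induction _ (fun g : A => ∃ a b c d, ∀ x : Fin 3 → ZMod 3,
    eval x g = a + b * x 0 + c * x 1 + d * x 2) ?_ ⟨0, 0, 0, 0, by simp⟩ fun m hm => ?_
  · rintro g g' ⟨a, b, c, d, e⟩ ⟨a', b', c', d', e'⟩
    exact ⟨a + a', b + b', c + c', d + d', fun x => by rw [map_add, e, e']; ring⟩
  have := (le_totalDegree hm).trans h
  rw [Finsupp.sum_fintype _ _ fun _ => rfl, Fin.sum_univ_three] at this
  simp only [eval_monomial, Finsupp.prod_pow, Fin.prod_univ_three]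
  generalize coeff m f = t
  obtain ⟨p, q, r⟩ | ⟨p, q, r⟩ | ⟨p, q, r⟩ | ⟨p, q, r⟩ : m 0 = 0 ∧ m 1 = 0 ∧ m 2 = 0 ∨
    m 0 = 1 ∧ m 1 = 0 ∧ m 2 = 0 ∨ m 0 = 0 ∧ m 1 = 1 ∧ m 2 = 0 ∨ m 0 = 0 ∧ m 1 = 0 ∧ m 2 = 1 := by
    omega
  exacts [⟨t, 0, 0, 0, by simp [p, q, r]⟩, ⟨0, t, 0, 0, by simp [p, q, r]⟩,
    ⟨0, 0, t, 0, by simp [p, q, r]⟩, ⟨0, 0, 0, t, by simp [p, q, r]⟩]

noncomputable def P : A := X 0 * X 1 - X 1 * X 2 + X 2

lemma fin : ∀ b b' c c' : ZMod 3, b * c' + c * b' = 1 → ∀ d d' : ZMod 3, c * d' + d * c' = -1 →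
    b * d' + d * b' = 0 → ∀ a a' : ZMod 3, a * b' + b * a' + b * b' = 0 →
    a * c' + c * a' + c * c' = 0 → a * d' + d * a' + d * d' ≠ 1 := by
  decide +kernel

lemma no {a b : A} (e : ZMod 3) (ha : a.totalDegree ≤ 1) (hb : b.totalDegree ≤ 1) :
    ¬ ∀ x : Fin 3 → ZMod 3, (∀ i, x i ∈ ({0, 1} : Set (ZMod 3))) →
      eval x (P - C e) = eval x (a * b) := fun h => by
  obtain ⟨a, b, c, d, p⟩ := aff ha
  obtain ⟨a', b', c', d', q⟩ := aff hb
  have k : ∀ x y z : ZMod 3, x = 0 ∨ x = 1 → y = 0 ∨ y = 1 → z = 0 ∨ z = 1 → x * y - y * z + z - e =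
      (a + b * x + c * y + d * z) * (a' + b' * x + c' * y + d' * z) := fun x y z hx hy hz => by
    simpa [P, p, q] using h ![x, y, z] fun i => by fin_cases i <;> simp_all
  have k0 := k 0 0 0 (.inl rfl) (.inl rfl) (.inl rfl)
  have k1 := k 1 0 0 (.inr rfl) (.inl rfl) (.inl rfl)
  have k2 := k 0 1 0 (.inl rfl) (.inr rfl) (.inl rfl)
  have k3 := k 0 0 1 (.inl rfl) (.inl rfl) (.inr rfl)
  exact fin b b' c c'
    (by linear_combination k1 + k2 - k0 - k 1 1 0 (.inr rfl) (.inr rfl) (.inl rfl)) d d'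
    (by linear_combination k2 + k3 - k0 - k 0 1 1 (.inl rfl) (.inr rfl) (.inr rfl))
    (by linear_combination k1 + k3 - k0 - k 1 0 1 (.inr rfl) (.inl rfl) (.inr rfl)) a a'
    (by linear_combination k0 - k1) (by linear_combination k0 - k2) (by linear_combination k0 - k3)

lemma dP : P.totalDegree ≤ 2 := by
  have m (i j : Fin 3) : (X i * X j : A).totalDegree ≤ 2 := (totalDegree_mul _ _).trans (by simp)
  exact (totalDegree_add _ _).trans (max_le ((totalDegree_sub _ _).trans (max_le (m 0 1) (m 1 2)))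
    (by simp))

theorem result : ∃ (p : ℕ) (_ : Fact p.Prime), 3 ≤ p ∧ ∃ (S : Set (ZMod p)) (n : ℕ)
    (P : MvPolynomial (Fin n) (ZMod p)), S.Nonempty ∧ 1 ≤ n ∧ P.totalDegree = 2 ∧
    (∃ y, ∀ x : Fin n → ZMod p, (∀ i, x i ∈ S) → eval x P ≠ y) ∧
    ∀ (c : ZMod p) (P₀ : MvPolynomial (Fin n) (ZMod p)), P₀.totalDegree ≤ (P - C c).totalDegree →
      (∀ x : Fin n → ZMod p, (∀ i, x i ∈ S) → eval x P₀ = 0) →
      ∀ k ∈ Lens 1 (P - C c - P₀), p - 1 ≤ k := by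
  refine ⟨3, inferInstance, le_rfl, {0, 1}, 3, P, ⟨0, by simp⟩, by omega, ?_, ⟨2, fun x h => ?_⟩,
    fun c Q dQ hQ k ⟨L, hk, h, e⟩ => ?_⟩
  · have := dP
    by_contra
    exact no (a := P) (b := 1) 0 (by omega) (by simp) (by simp)
  · rcases h 0 with a | a <;> rcases h 1 with b | b <;> rcases h 2 with c | c <;>
      simp_all [P] <;> decide
  have d1 : (P - C c).totalDegree ≤ 2 := (totalDegree_sub _ _).trans (max_le dP (by simp))
  have d2 : (P - C c - Q).totalDegree ≤ 2 := (totalDegree_sub _ _).trans (max_le d1 (dQ.trans d1))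
  have key : ∀ a b : A, a.totalDegree ≤ 1 → b.totalDegree ≤ 1 → a * b ≠ P - C c - Q :=
    fun a b x y w => no c x y fun v hv => by rw [w, map_sub _ _ Q, hQ v hv, sub_zero]
  match L, hk, h, e with
  | [], _, _, e => exact absurd (by simpa using e) (key 0 0 (by simp) (by simp))
  | [f], _, h, e =>
    obtain ⟨⟨l, a, rfl⟩, b⟩ := h f (by simp)
    obtain ⟨x, y, u, v, w⟩ := split l a (b.trans d2)
    exact absurd (by simpa [w] using e) (key x y u v)
  | _ :: _ :: _, hk, _, _ => simp at hk; omega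

end Pool.Agent.Results.MP_d05de0_co.Full
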